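import Pool.Agent.Helper49.RU.St

/-!
Project RU (MP_a60174_an): `StCHR` (orthogonality of the products of four characters).
-/

set_option autoImplicit false

namespace Pool.Agent.Helper73.RU

open Pool.Agent.Helper49.RU
open MeasureTheory Filter Topology Complex
open scoped ENNReal Cardinal ComplexConjugate

private lemma om_cube : om ^ 3 = 1 := by
  unfold om
  rw [← Complex.exp_nat_mul]
  have : ((3 : ℕ) : ℂ) * (2 * Real.pi * Complex.I / 3) = 2 * Real.pi * Complex.I := by
    push_cast
    ring
  rw [this, Complex.exp_two_pi_mul_I]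

private lemma om_norm : ‖om‖ = 1 := by
  have h : ‖om‖ ^ 3 = 1 := by rw [← norm_pow, om_cube, norm_one]
  exact (pow_eq_one_iff_of_nonneg (norm_nonneg _) (by norm_num)).1 h

private lemma om_ne : om ≠ 1 := by
  intro h
  unfold om at h
  rw [Complex.exp_eq_one_iff] at h
  obtain ⟨n, hn⟩ := h
  have h1 : (2 * Real.pi * Complex.I : ℂ) ≠ 0 := Complex.two_pi_I_ne_zero
  have h2 : (1 : ℂ) = 3 * n := by
    have h3 : (2 * Real.pi * Complex.I) * 1 = (2 * Real.pi * Complex.I) * (3 * (n : ℂ)) := by
      rw [div_eq_iff (by norm_num)] at hn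
      linear_combination hn
    exact mul_left_cancel₀ h1 h3
  have h4 : (1 : ℤ) = 3 * n := by exact_mod_cast h2
  omega

private lemma om_sum : 1 + om + om ^ 2 = 0 := by
  have h : (om - 1) * (1 + om + om ^ 2) = 0 := by
    have := om_cube
    linear_combination this
  rcases mul_eq_zero.1 h with h | h
  · exact absurd (sub_eq_zero.1 h) om_ne
  · exact h

private lemma om_conj : conj om = om ^ 2 := by
  have h1 : conj om * om = 1 := by
    rw [mul_comm, Complex.mul_conj, Complex.normSq_eq_norm_sq, om_norm]
    norm_num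
  have h2 : om ≠ 0 := by
    intro h
    have := om_norm
    rw [h, norm_zero] at this
    exact zero_ne_one this
  have h3 : conj om * om = om ^ 2 * om := by
    rw [h1, ← pow_succ, om_cube]
  exact mul_right_cancel₀ h2 h3

private def ee (a b c d : Fin 3) (x : Q) : ℕ :=
  2 * (ph a x).val + 2 * (ph b x).val + (ph c x).val + (ph d x).val

private lemma term_eq (a b c d : Fin 3) (x : Q) :
    conj (chi0 a x) * conj (chi0 b x) * chi0 c x * chi0 d x = om ^ (ee a b c d x % 3) := by
  have h1 : om ^ (ee a b c d x % 3) = om ^ (ee a b c d x) := by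
    conv_rhs => rw [← Nat.mod_add_div (ee a b c d x) 3, pow_add, pow_mul, om_cube, one_pow, mul_one]
  rw [h1]
  unfold chi0 ee
  rw [map_pow, map_pow, om_conj, pow_add, pow_add, pow_add, pow_mul, pow_mul]

private lemma pow_split (r : ℕ) (hr : r < 3) :
    om ^ r = (if r = 0 then (1 : ℂ) else 0) * 1 + (if r = 1 then (1 : ℂ) else 0) * om
      + (if r = 2 then (1 : ℂ) else 0) * om ^ 2 := by
  interval_cases r <;> simp

private lemma cards : ∀ a b c d : Fin 3,
    (Finset.univ.filter (fun x : Q => ee a b c d x % 3 = 0)).card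
      = (if (a = c ∧ b = d) ∨ (a = d ∧ b = c) then 9 else 3) ∧
    (Finset.univ.filter (fun x : Q => ee a b c d x % 3 = 1)).card
      = (if (a = c ∧ b = d) ∨ (a = d ∧ b = c) then 0 else 3) ∧
    (Finset.univ.filter (fun x : Q => ee a b c d x % 3 = 2)).card
      = (if (a = c ∧ b = d) ∨ (a = d ∧ b = c) then 0 else 3) := by
  decide +kernel

theorem hCHR : StCHR := by
  constructor
  · intro a x
    unfold chi0
    rw [norm_pow, om_norm, one_pow]
  · intro a b c d
    have h1 : ∑ x : Q, conj (chi0 a x) * conj (chi0 b x) * chi0 c x * chi0 d x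
        = ((Finset.univ.filter (fun x : Q => ee a b c d x % 3 = 0)).card : ℂ) * 1
          + ((Finset.univ.filter (fun x : Q => ee a b c d x % 3 = 1)).card : ℂ) * om
          + ((Finset.univ.filter (fun x : Q => ee a b c d x % 3 = 2)).card : ℂ) * om ^ 2 := by
      rw [← Finset.sum_boole, ← Finset.sum_boole, ← Finset.sum_boole, Finset.sum_mul,
        Finset.sum_mul, Finset.sum_mul, ← Finset.sum_add_distrib, ← Finset.sum_add_distrib]
      refine Finset.sum_congr rfl fun x _ => ?_
      rw [term_eq, pow_split _ (Nat.mod_lt _ (by norm_num))]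
    obtain ⟨c0, c1, c2⟩ := cards a b c d
    rw [h1, c0, c1, c2]
    by_cases h : (a = c ∧ b = d) ∨ (a = d ∧ b = c)
    · rw [if_pos h, if_pos h, if_pos h]
      push_cast
      ring
    · rw [if_neg h, if_neg h, if_neg h]
      have := om_sum
      push_cast
      linear_combination 3 * this

end Pool.Agent.Helper73.RU
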